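import Pool.Agent.Helper51.Hart.Defs2

/-!
# Weyl lemma for the Cauchy Riemann operator (HT-19 of MP_7ef401_an, written by helper96)

Mollify `g` by a radial kernel `ψ` and by a second sequence of kernels `φₙ`.  Each mollification
is holomorphic, the mean value property gives `ψ * (φₙ * g) = φₙ * g`, and the two convolutions
commute, so that `φₙ * g` converges everywhere to `ψ * g`, and almost everywhere to `g`.
-/

set_option autoImplicit false

noncomputable section

open Set Metric Complex MeasureTheory Filter Topology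
open scoped Convolution

namespace Pool.Helper51.Hart

/-- convolution of a real kernel with a complex function -/
private def wC (φ : ℂ → ℝ) (G : ℂ → ℂ) : ℂ → ℂ :=
  φ ⋆[ContinuousLinearMap.lsmul ℝ ℝ, volume] G

private theorem wC_fderiv {φ : ℂ → ℝ} {G : ℂ → ℂ}
    (hφ : ContDiff ℝ ((⊤ : ℕ∞) : WithTop ℕ∞) φ)
    (hc : HasCompactSupport φ) (hG : Integrable G) (x : ℂ) :
    DifferentiableAt ℝ (wC φ G) x ∧
      ∀ v, fderiv ℝ (wC φ G) x v = ∫ t, ((fderiv ℝ φ (x - t) v : ℝ) : ℂ) * G t := by
  have h1 : ContDiff ℝ 1 φ := hφ.of_le (by exact_mod_cast le_top)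
  have h := hc.hasFDerivAt_convolution_left
    (ContinuousLinearMap.lsmul ℝ ℝ : ℝ →L[ℝ] ℂ →L[ℝ] ℂ) h1 hG.locallyIntegrable x
  refine ⟨h.differentiableAt, fun v => ?_⟩
  have h2 : fderiv ℝ (wC φ G) x = _ := h.fderiv
  have h3 : ConvolutionExists (fderiv ℝ φ) G
      ((ContinuousLinearMap.lsmul ℝ ℝ : ℝ →L[ℝ] ℂ →L[ℝ] ℂ).precompL ℂ) volume :=
    (hc.fderiv ℝ).convolutionExists_left _ (h1.continuous_fderiv one_ne_zero)
      hG.locallyIntegrable
  rw [h2, convolution_def, ContinuousLinearMap.integral_apply (h3 x),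
    ← integral_sub_left_eq_self _ volume x]
  congr 1
  ext t
  simp [ContinuousLinearMap.precompL_apply]

private theorem wC_holo {P : Set ℂ} {g : ℂ → ℂ} (hg : Integrable (P.indicator g))
    (h : ∀ b : ℂ → ℂ, ContDiff ℝ ((⊤ : ℕ∞) : WithTop ℕ∞) b → HasCompactSupport b →
      tsupport b ⊆ P → ∫ w, g w * dbar b w = 0)
    {φ : ℂ → ℝ} (hφ : ContDiff ℝ ((⊤ : ℕ∞) : WithTop ℕ∞) φ) {r : ℝ}
    (hr : ∀ z, r < ‖z‖ → φ z = 0) {x : ℂ} (hx : closedBall x r ⊆ P) :
    DifferentiableAt ℂ (wC φ (P.indicator g)) x := by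
  have hc : HasCompactSupport φ := by
    refine HasCompactSupport.intro (isCompact_closedBall 0 r) fun z hz => hr z ?_
    simpa using hz
  obtain ⟨hd, hf⟩ := wC_fderiv hφ hc hg x
  rw [differentiableAt_complex_iff_differentiableAt_real]
  refine ⟨hd, ?_⟩
  have h1 : ContDiff ℝ 1 φ := hφ.of_le (by exact_mod_cast le_top)
  have hφd : Differentiable ℝ φ := h1.differentiable one_ne_zero
  set b : ℂ → ℂ := fun t => ((φ (x - t) : ℝ) : ℂ) with hb
  have hbc : ContDiff ℝ ((⊤ : ℕ∞) : WithTop ℕ∞) b := by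
    apply Complex.ofRealCLM.contDiff.comp
    exact hφ.comp (contDiff_const.sub contDiff_id)
  have hb0 : ∀ t, t ∉ closedBall x r → b t = 0 := by
    intro t ht
    simp only [hb]
    rw [hr _ (by rw [mem_closedBall, dist_eq_norm, norm_sub_rev, not_le] at ht; exact ht)]
    simp
  have hbs : HasCompactSupport b := HasCompactSupport.intro (isCompact_closedBall x r) hb0
  have hbt : tsupport b ⊆ closedBall x r := by
    apply closure_minimal _ isClosed_closedBall
    intro t ht
    by_contra hn
    exact ht (hb0 t hn)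
  have hbf : ∀ t v, fderiv ℝ b t v = -((fderiv ℝ φ (x - t) v : ℝ) : ℂ) := by
    intro t v
    have e1 : HasFDerivAt (fun t => φ (x - t)) ((fderiv ℝ φ (x - t)).comp
        (-(ContinuousLinearMap.id ℝ ℂ))) t := by
      have e2 : HasFDerivAt (fun t : ℂ => x - t) (-(ContinuousLinearMap.id ℝ ℂ)) t :=
        (hasFDerivAt_id t).const_sub x
      exact (hφd (x - t)).hasFDerivAt.comp t e2
    have e3 : HasFDerivAt b (Complex.ofRealCLM.comp ((fderiv ℝ φ (x - t)).comp
        (-(ContinuousLinearMap.id ℝ ℂ)))) t := Complex.ofRealCLM.hasFDerivAt.comp t e1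
    rw [e3.fderiv]
    simp
  have hint := h b hbc hbs (hbt.trans hx)
  -- integrability of the two pieces
  have hI : ∀ v, Integrable (fun t => ((fderiv ℝ φ (x - t) v : ℝ) : ℂ) * P.indicator g t) := by
    intro v
    have hcont : Continuous (fun t => ((fderiv ℝ φ (x - t) v : ℝ) : ℂ)) := by
      have := h1.continuous_fderiv one_ne_zero
      fun_prop
    have hcs : HasCompactSupport (fun t => ((fderiv ℝ φ (x - t) v : ℝ) : ℂ)) := by
      refine HasCompactSupport.intro (isCompact_closedBall x r) fun t ht => ?_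
      have : t ∉ tsupport b := fun h' => ht (hbt h')
      have h0 : fderiv ℝ b t = 0 := by
        by_contra hne
        exact this (support_fderiv_subset ℝ hne)
      have := hbf t v
      rw [h0] at this
      simpa using this.symm
    obtain ⟨C, hC⟩ := hcs.exists_bound_of_continuous hcont
    exact hg.bdd_mul hcont.aestronglyMeasurable (Eventually.of_forall hC)
  have e : ∫ w, g w * dbar b w =
      -((∫ t, ((fderiv ℝ φ (x - t) 1 : ℝ) : ℂ) * P.indicator g t) +
        I * ∫ t, ((fderiv ℝ φ (x - t) I : ℝ) : ℂ) * P.indicator g t) := by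
    rw [← integral_const_mul, ← integral_add (hI 1) ((hI I).const_mul I), ← integral_neg]
    congr 1
    ext t
    by_cases ht : t ∈ P
    · rw [indicator_of_mem ht]
      simp only [dbar, hbf]
      ring
    · have h0 : fderiv ℝ b t = 0 := by
        by_contra hne
        exact ht (hx (hbt (support_fderiv_subset ℝ hne)))
      rw [indicator_of_notMem ht]
      simp [dbar, h0]
  rw [hf, hf, smul_eq_mul]
  rw [e] at hint
  have e4 := neg_eq_zero.mp hint
  have e5 : (∫ t, ((fderiv ℝ φ (x - t) 1 : ℝ) : ℂ) * P.indicator g t) =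
      -(I * ∫ t, ((fderiv ℝ φ (x - t) I : ℝ) : ℂ) * P.indicator g t) :=
    eq_neg_of_add_eq_zero_left e4
  rw [e5, mul_neg, ← mul_assoc, I_mul_I]
  ring

private theorem radial_mean {ψ : ℂ → ℝ} (hψ : Continuous ψ) {l : ℝ}
    (hr : ∀ z, l < ‖z‖ → ψ z = 0) (hrad : ∀ z w : ℂ, ‖z‖ = ‖w‖ → ψ z = ψ w)
    (h1 : ∫ z, ψ z = 1) {f : ℂ → ℂ} (hf : Continuous f) {x : ℂ}
    (hx : ∀ y ∈ closedBall x l, DifferentiableAt ℂ f y) : wC ψ f x = f x := by
  have hrot : ∀ θ : ℝ, ∫ t, ψ t • f (x - circleMap 0 1 θ * t) = wC ψ f x := by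
    intro θ
    have h2 := (rotation (Circle.exp θ)).measurePreserving.integral_comp
      (rotation (Circle.exp θ)).toHomeomorph.measurableEmbedding (fun t => ψ t • f (x - t))
    have h3 : wC ψ f x = ∫ t, ψ t • f (x - t) := rfl
    rw [h3, ← h2]
    congr 1
    ext t
    have h4 : (rotation (Circle.exp θ)) t = circleMap 0 1 θ * t := by
      simp [rotation_apply, circleMap]
    rw [h4, hrad (circleMap 0 1 θ * t) t (by simp)]
  have hmean : ∀ t, ψ t • (∫ θ in (0 : ℝ)..(2 * Real.pi), f (x - circleMap 0 1 θ * t)) =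
      ψ t • ((2 * Real.pi) • f x) := by
    intro t
    by_cases ht : l < ‖t‖
    · rw [hr t ht]; simp
    · congr 1
      have hd : DiffContOnCl ℂ (fun ζ => f (x - ζ * t)) (ball (0 : ℂ) |1|) := by
        apply DifferentiableOn.diffContOnCl
        intro ζ hζ
        rw [abs_one, closure_ball _ one_ne_zero] at hζ
        have hm : x - ζ * t ∈ closedBall x l := by
          rw [mem_closedBall, dist_eq_norm]
          have : ‖ζ‖ ≤ 1 := by simpa using hζ
          have h5 : ‖x - ζ * t - x‖ = ‖ζ‖ * ‖t‖ := by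
            rw [← norm_mul, ← norm_neg]; congr 1; ring
          rw [h5]
          nlinarith [norm_nonneg t, norm_nonneg ζ]
        apply DifferentiableAt.differentiableWithinAt
        have h6 := hx _ hm
        have h7 : DifferentiableAt ℂ (fun ζ : ℂ => x - ζ * t) ζ := by fun_prop
        exact DifferentiableAt.comp ζ h6 h7
      have h8 := hd.circleAverage
      rw [Real.circleAverage_def] at h8
      simp only [zero_mul, sub_zero] at h8
      rw [← h8, smul_smul, mul_inv_cancel₀ (by positivity), one_smul]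
  have hc : HasCompactSupport ψ := by
    refine HasCompactSupport.intro (isCompact_closedBall 0 l) fun z hz => hr z ?_
    simpa using hz
  have hint : Integrable ψ := hψ.integrable_of_hasCompactSupport hc
  have e1 : ∫ t, ψ t • ((2 * Real.pi) • f x) = (2 * Real.pi) • f x := by
    rw [integral_smul_const, h1, one_smul]
  have e2 : ∫ θ in (0 : ℝ)..(2 * Real.pi), (∫ t, ψ t • f (x - circleMap 0 1 θ * t)) =
      (2 * Real.pi) • wC ψ f x := by
    simp only [hrot]
    rw [intervalIntegral.integral_const, sub_zero]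
  have e3 : ∫ θ in (0 : ℝ)..(2 * Real.pi), (∫ t, ψ t • f (x - circleMap 0 1 θ * t)) =
      ∫ t, ψ t • (∫ θ in (0 : ℝ)..(2 * Real.pi), f (x - circleMap 0 1 θ * t)) := by
    have hpi : (0 : ℝ) ≤ 2 * Real.pi := by positivity
    simp only [intervalIntegral.integral_of_le hpi]
    simp only [← integral_smul]
    apply integral_integral_swap
    have hF : Continuous (Function.uncurry fun (θ : ℝ) (t : ℂ) =>
        ψ t • f (x - circleMap 0 1 θ * t)) := by
      have : Continuous fun p : ℝ × ℂ => ψ p.2 • f (x - circleMap 0 1 p.1 * p.2) := by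
        have := continuous_circleMap 0 1
        fun_prop
      exact this
    have hK : IsCompact (Icc (0 : ℝ) (2 * Real.pi) ×ˢ closedBall (0 : ℂ) l) :=
      isCompact_Icc.prod (isCompact_closedBall _ _)
    have h9 := (hF.continuousOn.integrableOn_compact (μ := (volume : Measure ℝ).prod
      (volume : Measure ℂ)) hK)
    have h10 : IntegrableOn (Function.uncurry fun (θ : ℝ) (t : ℂ) =>
        ψ t • f (x - circleMap 0 1 θ * t)) (Ioc (0 : ℝ) (2 * Real.pi) ×ˢ (univ : Set ℂ))
        ((volume : Measure ℝ).prod (volume : Measure ℂ)) := by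
      refine IntegrableOn.of_forall_sdiff_eq_zero h9
        (measurableSet_Ioc.prod MeasurableSet.univ) ?_
      rintro ⟨θ, t⟩ ⟨⟨ha, -⟩, hb⟩
      have : l < ‖t‖ := by
        by_contra hn
        apply hb
        exact ⟨⟨ha.1.le, ha.2⟩, by simpa using not_lt.mp hn⟩
      simp [hr t this]
    rw [IntegrableOn, ← Measure.prod_restrict, Measure.restrict_univ] at h10
    exact h10
  have e4 : ∫ t, ψ t • (∫ θ in (0 : ℝ)..(2 * Real.pi), f (x - circleMap 0 1 θ * t)) =
      ∫ t, ψ t • ((2 * Real.pi) • f x) := by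
    congr 1; ext t; exact hmean t
  have e5 : (2 * Real.pi) • wC ψ f x = (2 * Real.pi) • f x := by
    rw [← e2, e3, e4, e1]
  have h2pi : (2 * Real.pi) ≠ 0 := by positivity
  exact smul_right_injective ℂ h2pi e5

private theorem exists_radial {l : ℝ} (hl : 0 < l) :
    ∃ ψ : ℂ → ℝ, ContDiff ℝ ((⊤ : ℕ∞) : WithTop ℕ∞) ψ ∧ (∀ z, l < ‖z‖ → ψ z = 0) ∧
      (∀ z w : ℂ, ‖z‖ = ‖w‖ → ψ z = ψ w) ∧ ∫ z, ψ z = 1 := by
  set ψ₀ : ℂ → ℝ := fun z => Real.smoothTransition (1 - ‖z‖ ^ 2 / l ^ 2) with hψ₀
  have h0 : ContDiff ℝ ((⊤ : ℕ∞) : WithTop ℕ∞) ψ₀ := by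
    apply Real.smoothTransition.contDiff.comp
    exact contDiff_const.sub ((contDiff_norm_sq ℝ).div_const _)
  have h1 : ∀ z, l < ‖z‖ → ψ₀ z = 0 := by
    intro z hz
    apply Real.smoothTransition.zero_of_nonpos
    rw [sub_nonpos, one_le_div (by positivity)]
    nlinarith
  have hc : HasCompactSupport ψ₀ := by
    refine HasCompactSupport.intro (isCompact_closedBall 0 l) fun z hz => h1 z ?_
    simpa using hz
  have hpos : 0 < ∫ z, ψ₀ z := by
    apply h0.continuous.integral_pos_of_hasCompactSupport_nonneg_nonzero hc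
      (fun z => Real.smoothTransition.nonneg _) (x := 0)
    simp [hψ₀]
  refine ⟨fun z => (∫ z, ψ₀ z)⁻¹ * ψ₀ z, contDiff_const.mul h0, ?_, ?_, ?_⟩
  · intro z hz
    simp only [h1 z hz, mul_zero]
  · intro z w hzw
    simp only [hψ₀, hzw]
  · rw [integral_const_mul, inv_mul_cancel₀ hpos.ne']

private theorem wC_comm {ψ φ : ℂ → ℝ} (hψ : Continuous ψ) (hψc : HasCompactSupport ψ)
    (hφ : Continuous φ) (hφc : HasCompactSupport φ) {G : ℂ → ℂ} (hG : Integrable G) (x : ℂ) :
    wC ψ (wC φ G) x = wC φ (wC ψ G) x := by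
  have key : ∀ (ψ φ : ℂ → ℝ), Continuous ψ → HasCompactSupport ψ → Continuous φ →
      HasCompactSupport φ →
      ((ψ ⋆[ContinuousLinearMap.mul ℝ ℝ, volume] φ)
        ⋆[ContinuousLinearMap.lsmul ℝ ℝ, volume] G) x = wC ψ (wC φ G) x := by
    intro ψ φ hψ hψc hφ hφc
    apply convolution_assoc (ContinuousLinearMap.mul ℝ ℝ) (ContinuousLinearMap.lsmul ℝ ℝ)
      (ContinuousLinearMap.lsmul ℝ ℝ) (ContinuousLinearMap.lsmul ℝ ℝ)
    · intro a b c
      simp [mul_assoc]
    · exact hψ.aestronglyMeasurable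
    · exact hφ.aestronglyMeasurable
    · exact hG.aestronglyMeasurable
    · exact Eventually.of_forall fun y =>
        hψc.convolutionExists_left _ hψ hφ.locallyIntegrable y
    · exact Eventually.of_forall fun y =>
        hφc.norm.convolutionExists_left _ hφ.norm hG.norm.locallyIntegrable y
    · exact hψc.norm.convolutionExists_left _ hψ.norm
        ((hφc.norm.continuous_convolution_left _ hφ.norm
          hG.norm.locallyIntegrable).locallyIntegrable) x
  rw [← key ψ φ hψ hψc hφ hφc, ← key φ ψ hφ hφc hψ hψc]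
  congr 1
  have : (φ ⋆[(ContinuousLinearMap.mul ℝ ℝ).flip, volume] ψ) =
      (ψ ⋆[ContinuousLinearMap.mul ℝ ℝ, volume] φ) := convolution_flip _
  rw [← this, ContinuousLinearMap.flip_mul]

/-- HT-19 -/
theorem weyl {P : Set ℂ} (hP : IsOpen P) {g : ℂ → ℂ} (hg : IntegrableOn g P)
    (h : ∀ b : ℂ → ℂ, ContDiff ℝ ((⊤ : ℕ∞) : WithTop ℕ∞) b → HasCompactSupport b →
      tsupport b ⊆ P → ∫ w, g w * dbar b w = 0) :
    ∃ H : ℂ → ℂ, DifferentiableOn ℂ H P ∧ ∀ᵐ w ∂(volume.restrict P), g w = H w := by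
  have hG : Integrable (P.indicator g) := (integrable_indicator_iff hP.measurableSet).2 hg
  set φ : ℕ → ContDiffBump (0 : ℂ) := fun n =>
    ⟨1 / ((n : ℝ) + 1), 2 / ((n : ℝ) + 1), by positivity,
      div_lt_div_of_pos_right (by norm_num) (by positivity)⟩ with hφ
  have hrout : ∀ n, (φ n).rOut = 2 / ((n : ℝ) + 1) := fun n => rfl
  have hrin : ∀ n, (φ n).rIn = 1 / ((n : ℝ) + 1) := fun n => rfl
  have hlim : Tendsto (fun n => (φ n).rOut) atTop (𝓝 0) := by
    simp only [hrout]
    have := tendsto_one_div_add_atTop_nhds_zero_nat (𝕜 := ℝ)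
    have h2 := this.const_mul 2
    simpa [div_eq_mul_inv] using h2
  set F : ℕ → ℂ → ℂ := fun n => wC ((φ n).normed volume) (P.indicator g) with hF
  have hzero : ∀ n z, (φ n).rOut < ‖z‖ → (φ n).normed volume z = 0 := by
    intro n z hz
    have : z ∉ Function.support ((φ n).normed volume) := by
      rw [(φ n).support_normed_eq]
      simp [hz.le]
    simpa using this
  have hae : ∀ᵐ x, Tendsto (fun n => F n x) atTop (𝓝 (P.indicator g x)) :=
    ContDiffBump.ae_convolution_tendsto_right_of_locallyIntegrable (K := 2) hlim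
      (Eventually.of_forall fun n => by rw [hrout, hrin, mul_one_div]) hG.locallyIntegrable
  have hcont : ∀ n, Continuous (F n) := by
    intro n
    have hd : Differentiable ℝ (F n) := fun x =>
      (wC_fderiv (φ n).contDiff_normed (φ n).hasCompactSupport_normed hG x).1
    exact hd.continuous
  have hmain : ∀ (l : ℝ), 0 < l → ∃ ψ : ℂ → ℝ,
      (∀ x, closedBall x l ⊆ P → DifferentiableAt ℂ (wC ψ (P.indicator g)) x) ∧
      ∀ x, closedBall x l ⊆ P →
        Tendsto (fun n => F n x) atTop (𝓝 (wC ψ (P.indicator g) x)) := by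
    intro l hl
    obtain ⟨ψ, h1, h2, h3, h4⟩ := exists_radial hl
    have hψc : HasCompactSupport ψ := by
      refine HasCompactSupport.intro (isCompact_closedBall 0 l) fun z hz => h2 z ?_
      simpa using hz
    refine ⟨ψ, fun x hx => wC_holo hG h h1 h2 hx, fun x hx => ?_⟩
    have hcψ : Continuous (wC ψ (P.indicator g)) := by
      have hd : Differentiable ℝ (wC ψ (P.indicator g)) := fun x =>
        (wC_fderiv h1 hψc hG x).1
      exact hd.continuous
    have ht : Tendsto (fun n => wC ((φ n).normed volume) (wC ψ (P.indicator g)) x) atTop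
        (𝓝 (wC ψ (P.indicator g) x)) :=
      ContDiffBump.convolution_tendsto_right_of_continuous hlim hcψ x
    refine ht.congr' ?_
    obtain ⟨δ, hδ, hsub⟩ := (isCompact_closedBall x l).exists_cthickening_subset_open hP hx
    rw [cthickening_closedBall hδ.le hl.le] at hsub
    filter_upwards [hlim.eventually (gt_mem_nhds hδ)] with n hn
    rw [← wC_comm h1.continuous hψc ((φ n).contDiff_normed (n := 0)).continuous
      (φ n).hasCompactSupport_normed hG x]
    apply radial_mean h1.continuous h2 h3 h4 (hcont n)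
    intro y hy
    apply wC_holo hG h (φ n).contDiff_normed (hzero n)
    refine Subset.trans ?_ hsub
    apply closedBall_subset_closedBall'
    rw [mem_closedBall] at hy
    linarith
  refine ⟨fun x => limUnder atTop (fun n => F n x), ?_, ?_⟩
  · intro x hx
    obtain ⟨ε, hε, hball⟩ := Metric.isOpen_iff.1 hP x hx
    obtain ⟨ψ, h1, h2⟩ := hmain (ε / 3) (by positivity)
    have hs : ∀ y ∈ ball x (ε / 3), closedBall y (ε / 3) ⊆ P := by
      intro y hy
      refine Subset.trans ?_ hball
      intro z hz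
      rw [mem_ball] at hy ⊢
      rw [mem_closedBall] at hz
      have := dist_triangle z y x
      linarith
    have heq : (fun x => limUnder atTop (fun n => F n x)) =ᶠ[𝓝 x] wC ψ (P.indicator g) := by
      filter_upwards [ball_mem_nhds x (show 0 < ε / 3 by positivity)] with y hy
      exact (h2 y (hs y hy)).limUnder_eq
    exact ((h1 x (hs x (mem_ball_self (by positivity)))).congr_of_eventuallyEq
      heq).differentiableWithinAt
  · rw [ae_restrict_iff' hP.measurableSet]
    filter_upwards [hae] with x hx hxP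
    rw [hx.limUnder_eq, indicator_of_mem hxP]

end Pool.Helper51.Hart
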